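import Pool.Agent.H867R3.Rare

/-!
# Gaussian disorder, all volumes: flat states at the band edge after changes at rare sites

`H_σ = Δ + σ ξ` on the discrete torus `(ℤ/L)^d` of side `L`, `d ≥ 5`, `(Δψ)(x) = ∑_{|y-x|=1} ψ(y)`, iid
standard Gaussian `ξ`. For small `σ` and all `L` (with constants that do not depend on `L`) there is a
change of the potential which commutes with the translations of the torus and which changes each
`ξ(x)` with probability at most `exp(-c σ^(-2d/(d+4)))`, such that after this change, for all `ξ`,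
the top eigenvector is extended: it lies between `1` and `1 + η`, its energy is within `1/L²` of a
deterministic energy `Es = 2d + O(σ^(4/(d+4)))`, and the gap to the rest of the spectrum is at least
`1/(2dL²)`, as for `Δ`. The changed potential is small everywhere. So the Lifshitz tails are caused
by a set of sites of stretched exponentially small density.

The proof clips the Gaussian variables at `σ^(-d/(d+4))` and uses the theorem `main_modi` for
bounded potentials of the starting file `Pool/Agent/H4R2/AE/Core2.lean` (by helper4 and the helpers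
named in that development), which had not been handed in. The starting result
`MP_1906c1_mp.LocalizationToEdge` and the result `MP_1906c1_mp.ScaleAtEdge` of this run treat the
unchanged potential on tori of side at most `exp(k/σ²)`.
-/

set_option autoImplicit false

namespace Pool.Agent.Results.MP_1906c1_mp.RareSites

open MeasureTheory ProbabilityTheory

/-- the discrete torus `(ℤ/L)^d` -/
abbrev Torus (d L : ℕ) : Type := Fin d → ZMod L

/-- `H = Δ + σ V` on the torus, `(Δ f)(x) = ∑_{|y - x| = 1} f(y)`, on real functions -/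
noncomputable def H {d L : ℕ} (σ : ℝ) (V f : Torus d L → ℝ) (x : Torus d L) : ℝ :=
  ∑ i : Fin d, (f (x + Pi.single i 1) + f (x - Pi.single i 1)) + σ * V x * f x

/-- `Δ + σ V` on the torus of side `L` has an eigenvector between `1` and `1 + η`, whose eigenvalue
`E0` is within `1 / L²` of `Es` and is the largest one, and the rest of the spectrum is below
`E0 - 1 / (2 d L²)` -/
def FlatTop {d L : ℕ} [NeZero L] (η Es σ : ℝ) (V : Torus d L → ℝ) : Prop :=
  ∃ (E0 : ℝ) (ψ : Torus d L → ℝ), |E0 - Es| ≤ 1 / (L : ℝ) ^ 2 ∧ (∀ x, 1 ≤ ψ x ∧ ψ x ≤ 1 + η) ∧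
    (∀ x, H σ V ψ x = E0 * ψ x) ∧
    ∀ f : Torus d L → ℝ, ∑ x, ψ x * f x = 0 →
      ∑ x, f x * H σ V f x ≤ (E0 - 1 / (2 * (d : ℝ) * (L : ℝ) ^ 2)) * ∑ x, f x ^ 2

/-- Let `d ≥ 5`, `0 < η ≤ 1`. There is `c > 0` such that for all `0 < σ ≤ c` and all `L ≥ 1` there are
a number `Es` with `|Es - 2 d| ≤ σ^(4/(d+4))` and a measurable map `Ψ` of potentials on the torus of
side `L` which commutes with the translations, such that, `ξ(x)` being iid standard Gaussian, each
value is changed with probability at most `exp(-c σ^(-2d/(d+4)))`, and for all `ξ`: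
`σ |Ψ(ξ)(x)| ≤ 3 σ^(4/(d+4))` for all `x`, and `Δ + σ Ψ(ξ)` has a flat top eigenvector with energy
within `1/L²` of `Es` and a spectral gap of at least `1/(2dL²)` below it. -/
theorem result (d : ℕ) (hd : 5 ≤ d) (η : ℝ) (hη : 0 < η) (hη' : η ≤ 1) : ∃ c : ℝ, 0 < c ∧
    ∀ σ : ℝ, 0 < σ → σ ≤ c → ∀ (L : ℕ) [NeZero L],
      ∃ Es : ℝ, |Es - 2 * d| ≤ σ ^ (4 / ((d : ℝ) + 4)) ∧
        ∃ Ψ : (Torus d L → ℝ) → (Torus d L → ℝ), Measurable Ψ ∧
        (∀ (ξ : Torus d L → ℝ) (a : Torus d L), Ψ (fun x => ξ (x + a)) = fun x => Ψ ξ (x + a)) ∧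
        (∀ x, (Measure.pi fun _ : Torus d L => gaussianReal 0 1).real {ξ | Ψ ξ x ≠ ξ x} ≤
          Real.exp (-(c * σ ^ (-(2 * (d : ℝ) / ((d : ℝ) + 4)))))) ∧
        ∀ ξ : Torus d L → ℝ, (∀ x, σ * |Ψ ξ x| ≤ 3 * σ ^ (4 / ((d : ℝ) + 4))) ∧
          FlatTop η Es σ (Ψ ξ) :=
  Pool.Agent.H867R3.Rare.main d hd η hη hη'

end Pool.Agent.Results.MP_1906c1_mp.RareSites
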