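import Pool.Agent.H4R2.LO.Fin
import Pool.Agent.H4R2.AE.TorG
import Pool.Agent.H695R3.AN.Prob

/-!
# Gaussian disorder: states near the effective band edge are spread out up to exponential scales

`H_σ = Δ + σ ξ` on `ℤ^d`, `d ≥ 4`, `(Δψ)(x) = ∑_{|y-x|=1} ψ(y)`, iid standard Gaussian `ξ`, weak
coupling.  There is an effective band edge `Es = Es(σ)` such that for all `κ ≥ exp(-k/σ²)`
* at the energies `|E| ≥ Es + κ` there is exponential localization;
* with probability at least `1 - exp(-k/σ²)` every `ℓ²`-eigenfunction `u` with `|E| ≥ Es - κ`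
  satisfies `|u(x)|² ≤ K κ^{d/2} ‖u‖²` at all sites `x` of the box of radius `exp(k/σ²)`;
* on tori of side at most `exp(k/σ²)` the eigenvalues, counted from the top one, agree with those of
  `Δ` up to the factor `(1+η)²`.
-/

set_option autoImplicit false

open scoped BigOperators ENNReal
open MeasureTheory ProbabilityTheory

namespace Pool.Agent.Results.MP_1906c1_mp.ScaleAtEdge

/-! ### The operator on `ℤ^d` -/

/-- `(H_σ ψ)(x) = ∑_{|y-x|=1} ψ(y) + σ ξ(x) ψ(x)` -/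
noncomputable def H {d : ℕ} (σ : ℝ) (ξ : (Fin d → ℤ) → ℝ) (ψ : (Fin d → ℤ) → ℂ)
    (x : Fin d → ℤ) : ℂ :=
  ∑ i : Fin d, (ψ (x + Pi.single i 1) + ψ (x - Pi.single i 1)) + ((σ * ξ x : ℝ) : ℂ) * ψ x

/-- square summable functions -/
def SqSummable {d : ℕ} (u : (Fin d → ℤ) → ℂ) : Prop := Summable fun x => ‖u x‖ ^ 2

/-- `μ` is the spectral measure of the vector `g`: a finite measure whose Borel transform
`∫ (E - z)⁻¹ dμ(E)` is `⟨g, (H - z)⁻¹ g⟩` for all non-real `z` -/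
def IsSpectralMeasure {d : ℕ} (A : ((Fin d → ℤ) → ℂ) → (Fin d → ℤ) → ℂ) (g : (Fin d → ℤ) → ℂ)
    (μ : Measure ℝ) : Prop :=
  IsFiniteMeasure μ ∧ ∀ z : ℂ, z.im ≠ 0 → ∃ u : (Fin d → ℤ) → ℂ, SqSummable u ∧
    (∀ x, A u x - z * u x = g x) ∧ ∫ E : ℝ, ((E : ℂ) - z)⁻¹ ∂μ = ∑' x, (starRingEnd ℂ) (g x) * u x

/-- exponential localization of the operator `A` at the energies in `S`, with rate `m`:
every polynomially bounded solution of `A ψ = E ψ`, `E ∈ S`, decays exponentially with rate `m`, and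
the spectral measures are pure point in `S` (carried there by a countable set) -/
def Localized {d : ℕ} (A : ((Fin d → ℤ) → ℂ) → (Fin d → ℤ) → ℂ) (S : Set ℝ) (m : ℝ) : Prop :=
  (∀ E ∈ S, ∀ ψ : (Fin d → ℤ) → ℂ, (∃ (C : ℝ) (n : ℕ), ∀ x, ‖ψ x‖ ≤ C * (1 + ‖x‖) ^ n) →
    (∀ x, A ψ x = (E : ℂ) * ψ x) → ∃ C : ℝ, ∀ x, ‖ψ x‖ ≤ C * Real.exp (-(m * ‖x‖))) ∧
  ∃ N : Set ℝ, N.Countable ∧ ∀ (g : (Fin d → ℤ) → ℂ) (μ : Measure ℝ), SqSummable g →
    IsSpectralMeasure A g μ → μ (S \ N) = 0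

/-- every square summable solution of `H_σ u = E u` satisfies `|u(x)|² ≤ B ∑_y |u(y)|²` at all sites
`x` with `max_i |x_i| ≤ ρ` -/
def SpreadOut {d : ℕ} (σ : ℝ) (ξ : (Fin d → ℤ) → ℝ) (E B ρ : ℝ) : Prop :=
  ∀ u : (Fin d → ℤ) → ℂ, SqSummable u → (∀ x, H σ ξ u x = (E : ℂ) * u x) →
    ∀ x : Fin d → ℤ, ‖x‖ ≤ ρ → ‖u x‖ ^ 2 ≤ B * ∑' y, ‖u y‖ ^ 2

/-! ### The operator on a torus -/

/-- the discrete torus `(ℤ/L)^d` -/
abbrev T (d L : ℕ) : Type := Fin d → ZMod L

/-- `H_σ` on the torus -/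
noncomputable def HT {d L : ℕ} (σ : ℝ) (ξ f : T d L → ℝ) (x : T d L) : ℝ :=
  ∑ i : Fin d, (f (x + Pi.single i 1) + f (x - Pi.single i 1)) + σ * ξ x * f x

/-- every solution of `H_σ u = E u` on the torus satisfies `|u(x)|² ≤ B ∑_y |u(y)|²` at all sites -/
def SpreadOutT {d L : ℕ} [NeZero L] (σ : ℝ) (ξ : T d L → ℝ) (E B : ℝ) : Prop :=
  ∀ u : T d L → ℝ, (∀ x, HT σ ξ u x = E * u x) → ∀ x, u x ^ 2 ≤ B * ∑ y, u y ^ 2

/-- the matrix of `H_σ` on the torus -/
noncomputable def MT {d L : ℕ} (σ : ℝ) (ξ : T d L → ℝ) : Matrix (T d L) (T d L) ℝ :=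
  Matrix.of fun x y => HT σ ξ (Pi.single y 1) x

theorem HT_eq {d L : ℕ} (σ : ℝ) (ξ f : T d L → ℝ) (x : T d L) :
    HT σ ξ f x = 2 * d * f x - Pool.Agent.H4R2.AE.Hop σ (fun y => -ξ y) f x := by
  unfold HT Pool.Agent.H4R2.AE.Hop
  have h : ∑ i : Fin d, (2 * f x - f (x + Pi.single i 1) - f (x - Pi.single i 1)) =
      2 * d * f x - ∑ i : Fin d, (f (x + Pi.single i 1) + f (x - Pi.single i 1)) := by
    rw [Finset.sum_add_distrib, Finset.sum_sub_distrib, Finset.sum_sub_distrib]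
    simp
    ring
  rw [h]
  ring

theorem MT_mulVec {d L : ℕ} [NeZero L] (σ : ℝ) (ξ f : T d L → ℝ) (x : T d L) :
    (MT σ ξ).mulVec f x = HT σ ξ f x := by
  have h1 : (MT σ ξ).mulVec f x = ∑ y, HT σ ξ (Pi.single y 1) x * f y := rfl
  rw [h1]
  have hp : ∀ z : T d L, ∑ y, (Pi.single y (1 : ℝ) : T d L → ℝ) z * f y = f z := by
    intro z
    rw [Finset.sum_eq_single z]
    · simp
    · intro b _ hb
      rw [Pi.single_eq_of_ne (Ne.symm hb)]
      simp
    · intro h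
      exact absurd (Finset.mem_univ z) h
  have h2 : ∀ y, HT σ ξ (Pi.single y 1) x * f y =
      ∑ i : Fin d, ((Pi.single y (1 : ℝ) : T d L → ℝ) (x + Pi.single i 1) * f y +
        (Pi.single y (1 : ℝ) : T d L → ℝ) (x - Pi.single i 1) * f y) +
        σ * ξ x * ((Pi.single y (1 : ℝ) : T d L → ℝ) x * f y) := by
    intro y
    unfold HT
    rw [add_mul, Finset.sum_mul]
    congr 1
    · exact Finset.sum_congr rfl fun i _ => by ring
    · ring
  rw [Finset.sum_congr rfl fun y _ => h2 y, Finset.sum_add_distrib, Finset.sum_comm,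
    ← Finset.mul_sum, hp]
  unfold HT
  congr 1
  refine Finset.sum_congr rfl fun i _ => ?_
  rw [Finset.sum_add_distrib, hp, hp]

theorem HT_symm {d L : ℕ} [NeZero L] (σ : ℝ) (ξ f g : T d L → ℝ) :
    ∑ x, g x * HT σ ξ f x = ∑ x, f x * HT σ ξ g x := by
  have h := Pool.Agent.H4R2.AE.Gs.hop_symm σ (fun y => -ξ y) f g
  simp only [HT_eq, mul_sub, Finset.sum_sub_distrib]
  rw [h]
  congr 1
  exact Finset.sum_congr rfl fun x _ => by ring

theorem MT_isHermitian {d L : ℕ} [NeZero L] (σ : ℝ) (ξ : T d L → ℝ) :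
    (MT σ ξ).IsHermitian := by
  ext x y
  rw [Matrix.conjTranspose_apply]
  show HT σ ξ (Pi.single x 1) y = HT σ ξ (Pi.single y 1) x
  have h := HT_symm σ ξ (Pi.single x 1) (Pi.single y 1)
  have hp : ∀ (z : T d L) (F : T d L → ℝ), ∑ w, (Pi.single z (1 : ℝ) : T d L → ℝ) w * F w = F z := by
    intro z F
    rw [Finset.sum_eq_single z]
    · simp
    · intro b _ hb
      rw [Pi.single_eq_of_ne hb]
      simp
    · intro h
      exact absurd (Finset.mem_univ z) h
  rw [hp, hp] at h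
  exact h

/-- the number of eigenvalues (with multiplicity) of `H_σ` on the torus that are at least `t` -/
noncomputable def numGE {d L : ℕ} [NeZero L] (σ : ℝ) (ξ : T d L → ℝ) (t : ℝ) : ℕ :=
  (Finset.univ.filter fun i => t ≤ (MT_isHermitian σ ξ).eigenvalues i).card

/-- the eigenvalues of `H_σ` on the torus, counted from `E`, agree with those of `Δ`, counted from
`2d`, up to the factor `q`: for every `t ≥ 0` the number of eigenvalues `≥ E - t` of `H_σ` lies
between the numbers of eigenvalues `≥ 2d - t/q` and `≥ 2d - q t` of `Δ` -/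
def LikeFree {d L : ℕ} [NeZero L] (q E σ : ℝ) (ξ : T d L → ℝ) : Prop :=
  ∀ t : ℝ, 0 ≤ t → numGE (d := d) (L := L) 0 0 (2 * d - t / q) ≤ numGE σ ξ (E - t) ∧
    numGE σ ξ (E - t) ≤ numGE (d := d) (L := L) 0 0 (2 * d - q * t)

/-- the exponent `1/σ²` for `d ≠ 4`, `1/σ` for `d = 4` -/
noncomputable def sc (d : ℕ) (σ : ℝ) : ℝ := if d = 4 then 1 / σ else 1 / σ ^ 2

/-! ### Translation -/

theorem law_neg (d : ℕ) :
    (Measure.infinitePi fun _ : Fin d → ℤ => gaussianReal 0 1).map (fun ξ x => -ξ x) =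
      Measure.infinitePi fun _ : Fin d → ℤ => gaussianReal 0 1 := by
  have h1 := Measure.infinitePi_map_pi (μ := fun _ : Fin d → ℤ => gaussianReal 0 1)
    (f := fun _ (s : ℝ) => -s) (fun _ => measurable_neg)
  simp only [gaussianReal_map_neg, neg_zero] at h1
  exact h1

theorem lawT_neg (d L : ℕ) [NeZero L] :
    (Measure.pi fun _ : T d L => gaussianReal 0 1).map (fun ξ x => -ξ x) =
      Measure.pi fun _ : T d L => gaussianReal 0 1 := by
  rw [← Measure.infinitePi_eq_pi]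
  have h1 := Measure.infinitePi_map_pi (μ := fun _ : T d L => gaussianReal 0 1)
    (f := fun _ (s : ℝ) => -s) (fun _ => measurable_neg)
  simp only [gaussianReal_map_neg, neg_zero] at h1
  exact h1

theorem H_eq {d : ℕ} (σ : ℝ) (ξ : (Fin d → ℤ) → ℝ) :
    H σ ξ = Pool.Agent.H4R2.LO.Hg 1 (fun x => σ * ξ x) := by
  funext u x
  unfold H Pool.Agent.H4R2.LO.Hg
  push_cast
  ring

theorem localized_of {d : ℕ} (σ : ℝ) (ξ : (Fin d → ℤ) → ℝ) (S : Set ℝ) (m : ℝ) (hm : 0 < m)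
    (h : Pool.Agent.H4R2.LO.Main.Dec d 1 (fun x => σ * ξ x) S m) :
    Localized (H σ ξ) S m := by
  rw [H_eq]
  exact ⟨h, Pool.Agent.H4R2.LO.Main.pure_point 1 (fun x => σ * ξ x) S m hm h⟩

/-- the form in terms of the flat state -/
theorem form {d L : ℕ} [NeZero L] (σ E : ℝ) (ξ ψ g : T d L → ℝ)
    (h : ∀ x, HT σ ξ ψ x = E * ψ x) :
    ∑ x, (ψ x * g x) * HT σ ξ (fun y => ψ y * g y) x = E * ∑ x, (ψ x * g x) ^ 2 -
      ∑ x, ∑ i : Fin d, ψ x * ψ (x + Pi.single i 1) * (g x - g (x + Pi.single i 1)) ^ 2 := by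
  have h1 := Pool.Agent.H4R2.LO.El.vf σ (2 * d - E) (fun y => -ξ y) ψ g (fun x => by
    have := h x
    rw [HT_eq] at this
    linarith)
  have h2 : ∀ x, (ψ x * g x) * HT σ ξ (fun y => ψ y * g y) x = 2 * d * (ψ x * g x) ^ 2 -
      (ψ x * g x) * Pool.Agent.H4R2.AE.Hop σ (fun y => -ξ y) (fun y => ψ y * g y) x := by
    intro x
    rw [HT_eq]
    ring
  rw [Finset.sum_congr rfl fun x _ => h2 x, Finset.sum_sub_distrib, ← Finset.mul_sum, h1]
  ring

theorem form0 {d L : ℕ} [NeZero L] (g : T d L → ℝ) :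
    ∑ x, g x * HT 0 0 g x = 2 * d * ∑ x, g x ^ 2 -
      ∑ x, ∑ i : Fin d, (g x - g (x + Pi.single i 1)) ^ 2 := by
  have h := form (d := d) (L := L) 0 (2 * d) 0 (fun _ => 1) g (fun x => by
    unfold HT
    simp
    ring)
  simp only [one_mul] at h
  exact h

/-- multiplication by a positive function -/
noncomputable def mulE {d L : ℕ} (ψ : T d L → ℝ) (hψ : ∀ x, ψ x ≠ 0) :
    (T d L → ℝ) ≃ₗ[ℝ] (T d L → ℝ) where
  toFun g := fun x => ψ x * g x
  invFun g := fun x => (ψ x)⁻¹ * g x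
  map_add' f g := by funext x; simp [mul_add]
  map_smul' c g := by funext x; simp; ring
  left_inv g := by funext x; simp [hψ x]
  right_inv g := by funext x; simp [hψ x]

/-- comparison with the free operator -/
theorem likeFree {d L : ℕ} [NeZero L] (η σ E : ℝ) (hη : 0 < η) (ξ ψ : T d L → ℝ)
    (h1 : ∀ x, 1 ≤ ψ x ∧ ψ x ≤ 1 + η) (h : ∀ x, HT σ ξ ψ x = E * ψ x) :
    LikeFree ((1 + η) ^ 2) E σ ξ := by
  have hpos : ∀ x, 0 < ψ x := fun x => by linarith [(h1 x).1]
  have hq : 0 < (1 + η) ^ 2 := by positivity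
  have hD : ∀ g : T d L → ℝ,
      ∑ x, ∑ i : Fin d, (g x - g (x + Pi.single i 1)) ^ 2 ≤
      ∑ x, ∑ i : Fin d, ψ x * ψ (x + Pi.single i 1) * (g x - g (x + Pi.single i 1)) ^ 2 := by
    intro g
    refine Finset.sum_le_sum fun x _ => Finset.sum_le_sum fun i _ => ?_
    have a1 := (h1 x).1
    have a2 := (h1 (x + Pi.single i 1)).1
    have : 1 ≤ ψ x * ψ (x + Pi.single i 1) := by nlinarith
    nlinarith [sq_nonneg (g x - g (x + Pi.single i 1))]
  have hD' : ∀ g : T d L → ℝ,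
      ∑ x, ∑ i : Fin d, ψ x * ψ (x + Pi.single i 1) * (g x - g (x + Pi.single i 1)) ^ 2 ≤
      (1 + η) ^ 2 * ∑ x, ∑ i : Fin d, (g x - g (x + Pi.single i 1)) ^ 2 := by
    intro g
    rw [Finset.mul_sum]
    refine Finset.sum_le_sum fun x _ => ?_
    rw [Finset.mul_sum]
    refine Finset.sum_le_sum fun i _ => ?_
    have a1 := h1 x
    have a2 := h1 (x + Pi.single i 1)
    have : ψ x * ψ (x + Pi.single i 1) ≤ (1 + η) ^ 2 := by
      rw [sq]
      exact mul_le_mul a1.2 a2.2 (hpos _).le (by linarith)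
    exact mul_le_mul_of_nonneg_right this (sq_nonneg _)
  have hN : ∀ g : T d L → ℝ, ∑ x, g x ^ 2 ≤ ∑ x, (ψ x * g x) ^ 2 := by
    intro g
    refine Finset.sum_le_sum fun x _ => ?_
    rw [mul_pow]
    have : 1 ≤ ψ x ^ 2 := one_le_pow₀ (h1 x).1
    nlinarith [sq_nonneg (g x)]
  have hN' : ∀ g : T d L → ℝ, ∑ x, (ψ x * g x) ^ 2 ≤ (1 + η) ^ 2 * ∑ x, g x ^ 2 := by
    intro g
    rw [Finset.mul_sum]
    refine Finset.sum_le_sum fun x _ => ?_
    rw [mul_pow]
    exact mul_le_mul_of_nonneg_right (pow_le_pow_left₀ (hpos x).le (h1 x).2 2) (sq_nonneg _)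
  intro t ht
  constructor
  · refine Pool.Agent.H695R3.AN.Count.compare (MT_isHermitian 0 0) (MT_isHermitian σ ξ) _ _
      (mulE ψ fun x => (hpos x).ne') (fun g hg => ?_)
    simp only [MT_mulVec] at hg ⊢
    have e1 : ∀ x, mulE ψ (fun x => (hpos x).ne') g x = ψ x * g x := fun x => rfl
    have e2 : (mulE ψ (fun x => (hpos x).ne') g) = fun y => ψ y * g y := rfl
    simp only [e1]
    rw [e2, form σ E ξ ψ g h]
    rw [form0] at hg
    have b1 := hD' g
    have b2 := hN g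
    have b3 : ∑ x, ∑ i : Fin d, (g x - g (x + Pi.single i 1)) ^ 2 ≤
        t / (1 + η) ^ 2 * ∑ x, g x ^ 2 := by linarith
    have b4 := mul_le_mul_of_nonneg_left b3 hq.le
    have b5 : (1 + η) ^ 2 * (t / (1 + η) ^ 2 * ∑ x, g x ^ 2) = t * ∑ x, g x ^ 2 := by
      field_simp
    have b6 := mul_le_mul_of_nonneg_left b2 ht
    linarith
  · refine Pool.Agent.H695R3.AN.Count.compare (MT_isHermitian σ ξ) (MT_isHermitian 0 0) _ _
      (mulE ψ fun x => (hpos x).ne').symm (fun f hf => ?_)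
    simp only [MT_mulVec] at hf ⊢
    obtain ⟨g, rfl⟩ := (mulE ψ fun x => (hpos x).ne').surjective f
    rw [LinearEquiv.symm_apply_apply]
    have e1 : ∀ x, mulE ψ (fun x => (hpos x).ne') g x = ψ x * g x := fun x => rfl
    have e2 : (mulE ψ (fun x => (hpos x).ne') g) = fun y => ψ y * g y := rfl
    simp only [e1] at hf
    rw [e2, form σ E ξ ψ g h] at hf
    rw [form0]
    have b1 := hD g
    have b2 := hN' g
    have b6 := mul_le_mul_of_nonneg_left b2 ht
    linarith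

/-- **Theorem.** -/
theorem result (d : ℕ) (hd : 4 ≤ d) (η : ℝ) (hη : 0 < η) (hη' : η ≤ 1) :
    ∃ k K : ℝ, 0 < k ∧ 0 < K ∧ ∀ σ : ℝ, 0 < σ → σ ≤ k → ∃ Es : ℝ, |Es - 2 * d| ≤ 1 ∧
      -- (1) on `ℤ^d`: `ℓ²`-eigenfunctions with `|E| ≥ Es - κ` are spread out
      (∃ G : Set ((Fin d → ℤ) → ℝ), MeasurableSet G ∧
        1 - Real.exp (-(k * sc d σ)) ≤
          (Measure.infinitePi fun _ : Fin d → ℤ => gaussianReal 0 1).real G ∧
        ∀ ξ ∈ G, ∀ κ : ℝ, Real.exp (-(k * sc d σ)) ≤ κ → κ ≤ 1 → ∀ E : ℝ, Es - κ ≤ |E| →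
          SpreadOut σ ξ E (K * κ ^ ((d : ℝ) / 2)) (Real.exp (k * sc d σ))) ∧
      -- (2) on tori of side up to `exp(k sc)`: the same, and the eigenvalues near the edge are those
      -- of `Δ`, shifted, up to the factor `(1 + η)²`
      (∀ (L : ℕ) [NeZero L], (L : ℝ) ≤ Real.exp (k * sc d σ) →
        ∃ G : Set (T d L → ℝ), MeasurableSet G ∧
          1 - Real.exp (-(k * sc d σ)) ≤ (Measure.pi fun _ : T d L => gaussianReal 0 1).real G ∧
          ∀ ξ ∈ G,
            (∃ Et : ℝ, |Et - Es| ≤ K / (L : ℝ) ^ 2 ∧ LikeFree ((1 + η) ^ 2) Et σ ξ) ∧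
            ∀ κ : ℝ, 1 / (L : ℝ) ^ 2 ≤ κ → ∀ E : ℝ, Es - κ ≤ E →
              SpreadOutT σ ξ E (K * κ ^ ((d : ℝ) / 2))) ∧
      -- (3) exponential localization for `|E| ≥ Es + κ`
      ∀ κ : ℝ, Real.exp (-(k * sc d σ)) ≤ κ → κ ≤ 1 →
        ∀ᵐ ξ ∂(Measure.infinitePi fun _ : Fin d → ℤ => gaussianReal 0 1),
          Localized (H σ ξ) {E | Es + κ ≤ |E|} (k * Real.sqrt κ / Real.log (2 / (κ * σ))) := by
  obtain ⟨c1, hc1, HT1⟩ := Pool.Agent.H4R2.AE.TorG.main_torusG d hd η hη hη'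
  obtain ⟨k0, s0, K, hk0, hs0, hK, HF⟩ := Pool.Agent.H4R2.LO.Fin.fin d (by omega) 1 c1
    one_pos hc1
  obtain ⟨C1, hC1, HL⟩ := Pool.Agent.H695R3.AN.latt d hd
  obtain ⟨C2, hC2, HTo⟩ := Pool.Agent.H695R3.AN.tor d hd
  -- the scale
  have hsc : ∀ σ : ℝ, sc d σ = 1 / Pool.Agent.H4R2.AE.scaleG d σ := by
    intro σ
    unfold sc Pool.Agent.H4R2.AE.scaleG
    split_ifs <;> rfl
  set k' : ℝ := min (k0 / 10) (min c1 (min s0 1)) with hk'
  have hk'pos : 0 < k' := by positivity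
  have hk'k : k' ≤ k0 / 10 := min_le_left _ _
  have hk'k0 : k' ≤ k0 := by linarith
  set M : ℝ := (1 + K) ^ ((d : ℝ) / 2) with hM
  have hM0 : 0 < M := Real.rpow_pos_of_pos (by linarith) _
  set K' : ℝ := K + C1 * M + C2 * M with hK'
  have hC1M : 0 < C1 * M := by positivity
  have hC2M : 0 < C2 * M := by positivity
  refine ⟨k', K', hk'pos, by linarith, ?_⟩
  intro σ hσ hσk
  have hσc1 : σ ≤ c1 := hσk.trans ((min_le_right _ _).trans (min_le_left _ _))
  have hσs0 : σ ≤ s0 := hσk.trans ((min_le_right _ _).trans ((min_le_right _ _).trans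
    (min_le_left _ _)))
  have hσ1 : σ ≤ 1 := hσk.trans ((min_le_right _ _).trans ((min_le_right _ _).trans
    (min_le_right _ _)))
  set s := Pool.Agent.H4R2.AE.scaleG d σ with hs
  have hspos : 0 < s := Pool.Agent.H4R2.AE.TorG.scaleG_pos d σ hσ
  have hsσ : s ≤ σ := by
    rw [hs]
    unfold Pool.Agent.H4R2.AE.scaleG
    split_ifs
    · exact le_rfl
    · nlinarith
  have hsk : s ≤ k0 / 10 := hsσ.trans (hσk.trans hk'k)
  have hexp1 : k' * sc d σ ≤ k0 / s := by
    rw [hsc σ, ← hs, mul_one_div]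
    exact div_le_div_of_nonneg_right hk'k0 hspos.le
  have hexp2 : k' * sc d σ ≤ k0 / (2 * s) := by
    rw [hsc σ, ← hs, mul_one_div, div_le_div_iff₀ hspos (by positivity)]
    nlinarith
  have hX : 10 ≤ Real.exp (k0 / (2 * s)) := by
    have h5 : 5 ≤ k0 / (2 * s) := by
      rw [le_div_iff₀ (by positivity)]
      linarith
    have h6 := Pool.Agent.H4R2.LO.Fin.exp_ge_sq (k0 / (2 * s)) (by linarith)
    nlinarith
  obtain ⟨Es, hEs, H1, H2⟩ := HF (gaussianReal 0 1) Pool.Agent.H4R2.LO.Lw.reg_gauss s σ η 1 hspos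
    (hsσ.trans hσs0) hsσ hσ1 hη' (by
      intro L _ hL
      obtain ⟨E, hE, G, hG, hP, hflat⟩ := HT1 σ hσ hσc1 L hL
      exact ⟨E, hE, G, hG, hP, fun V hV => (hflat V hV).2⟩)
  refine ⟨2 * d - Es, by rw [sub_sub_cancel_left, abs_neg]; exact hEs, ?_, ?_, ?_⟩
  · -- the lattice
    obtain ⟨G, hG, hP, hG2⟩ := HL (gaussianReal 0 1) k0 s σ K Es hK.le hX (by
      intro L _ hL
      obtain ⟨G, hG, hP, hflat⟩ := H1 L hL
      refine ⟨G, hG, hP, fun V hV => ?_⟩
      obtain ⟨E0, ψ, h1, h2, h3⟩ := hflat V hV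
      exact ⟨E0, ψ, h1, fun x => ⟨(h2 x).1, by linarith [(h2 x).2]⟩, h3⟩)
    have hm : Measurable (fun (ξ : (Fin d → ℤ) → ℝ) y => -ξ y) := by fun_prop
    refine ⟨G ∩ (fun ξ y => -ξ y) ⁻¹' G, hG.inter (hm hG), ?_, ?_⟩
    · have hP2 : 1 - Real.exp (-k0 / s) ≤
          (Measure.infinitePi fun _ : Fin d → ℤ => gaussianReal 0 1).real
            ((fun ξ y => -ξ y) ⁻¹' G) := by
        have h1 : (Measure.infinitePi fun _ : Fin d → ℤ => gaussianReal 0 1).real
            ((fun ξ y => -ξ y) ⁻¹' G) =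
            (Measure.infinitePi fun _ : Fin d → ℤ => gaussianReal 0 1).real G := by
          conv_rhs => rw [← law_neg d]
          rw [map_measureReal_apply hm hG]
        rw [h1]
        exact hP
      have h2 := measureReal_union_add_inter (μ := Measure.infinitePi fun _ : Fin d → ℤ =>
        gaussianReal 0 1) (s := G) (t := (fun ξ y => -ξ y) ⁻¹' G) (hm hG)
      have h3 : (Measure.infinitePi fun _ : Fin d → ℤ => gaussianReal 0 1).real
          (G ∪ (fun ξ y => -ξ y) ⁻¹' G) ≤ 1 := measureReal_le_one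
      have h4 : 2 * Real.exp (-k0 / s) ≤ Real.exp (-(k' * sc d σ)) := by
        have h5 : Real.exp (-k0 / s) = Real.exp (-(k0 / (2 * s))) * Real.exp (-(k0 / (2 * s))) := by
          rw [← Real.exp_add]
          congr 1
          field_simp
          ring
        have h6 : Real.exp (-(k0 / (2 * s))) ≤ Real.exp (-(k' * sc d σ)) :=
          Real.exp_le_exp.2 (by linarith)
        have h7 : Real.exp (-(k0 / (2 * s))) ≤ 1 / 2 := by
          rw [Real.exp_neg, ← one_div]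
          exact one_div_le_one_div_of_le (by norm_num) (by linarith)
        have h8 := Real.exp_pos (-(k0 / (2 * s)))
        rw [h5]
        nlinarith
      linarith
    · intro ξ hξ κ hκ hκ1 E hE u hu hgen x hx
      have hκ0 : 0 < κ := lt_of_lt_of_le (Real.exp_pos _) hκ
      have hκ2 : Real.exp (-k0 / (2 * s)) ≤ κ := by
        refine le_trans (Real.exp_le_exp.2 ?_) hκ
        rw [neg_div]
        linarith
      have hx2 : ‖x‖ ≤ Real.exp (k0 / (2 * s)) := hx.trans (Real.exp_le_exp.2 hexp2)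
      have hsum0 : 0 ≤ ∑' y, ‖u y‖ ^ 2 := tsum_nonneg fun y => by positivity
      have hKK : C1 * M * κ ^ ((d : ℝ) / 2) * ∑' y, ‖u y‖ ^ 2 ≤
          K' * κ ^ ((d : ℝ) / 2) * ∑' y, ‖u y‖ ^ 2 := by
        apply mul_le_mul_of_nonneg_right _ hsum0
        apply mul_le_mul_of_nonneg_right _ (Real.rpow_nonneg hκ0.le _)
        linarith
      have hg : Pool.Agent.H4R2.LO.IsGen 1 (fun x => σ * ξ x) E u := by
        intro y
        rw [← H_eq]
        exact hgen y
      refine le_trans ?_ hKK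
      rcases le_or_gt 0 E with h0 | h0
      · rw [abs_of_nonneg h0] at hE
        have hg2 := Pool.Agent.H4R2.LO.Main.neg_gen 1 (fun x => σ * ξ x) E u hg
        have e1 : (fun x => -(σ * ξ x)) = fun x => σ * (-ξ x) := by
          funext y; ring
        rw [e1] at hg2
        exact hG2 _ hξ.2 κ hκ2 hκ1 (-E) (by linarith) u hg2 hu x hx2
      · rw [abs_of_neg h0] at hE
        have hg2 := Pool.Agent.H4R2.LO.Main.stag 1 (fun x => σ * ξ x) E u hg
        have hn : ∀ y, ‖Pool.Agent.H4R2.LO.Main.sgn y * u y‖ = ‖u y‖ := fun y => by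
          rw [norm_mul, Pool.Agent.H4R2.LO.Main.sgn_norm, one_mul]
        have h9 := hG2 _ hξ.1 κ hκ2 hκ1 E (by linarith) _ hg2 (by
          unfold Pool.Agent.H4R2.LO.L2f
          simp only [hn]
          exact hu) x hx2
        simp only [hn] at h9
        exact h9
  · intro L _ hL
    obtain ⟨G, hG, hP, hflat⟩ := H1 L (hL.trans (Real.exp_le_exp.2 hexp1))
    have hm : Measurable (fun (ξ : T d L → ℝ) y => -ξ y) := by fun_prop
    refine ⟨(fun ξ y => -ξ y) ⁻¹' G, hm hG, ?_, fun ξ hξ => ?_⟩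
    · have h1 : (Measure.pi fun _ : T d L => gaussianReal 0 1).real ((fun ξ y => -ξ y) ⁻¹' G) =
          (Measure.pi fun _ : T d L => gaussianReal 0 1).real G := by
        conv_rhs => rw [← lawT_neg d L]
        rw [map_measureReal_apply hm hG]
      rw [h1]
      refine le_trans ?_ hP
      have h3 : Real.exp (-k0 / s) ≤ Real.exp (-(k' * sc d σ)) := by
        apply Real.exp_le_exp.2
        rw [neg_div]
        linarith
      linarith
    · obtain ⟨E0, ψ, h1, h2, h3⟩ := hflat _ hξ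
      refine ⟨⟨2 * d - E0, ?_, ?_⟩, ?_⟩
      · have e1 : 2 * (d : ℝ) - E0 - (2 * d - Es) = -(E0 - Es) := by ring
        rw [e1, abs_neg]
        refine h1.trans ?_
        apply div_le_div_of_nonneg_right _ (by positivity)
        linarith
      · refine likeFree η σ (2 * d - E0) hη ξ ψ h2 (fun x => ?_)
        rw [HT_eq, h3 x]
        ring
      · intro κ hκ E hE u hu x
        have hL0 : (0 : ℝ) < L := by exact_mod_cast Nat.pos_of_ne_zero (NeZero.ne L)
        have hκ0 : 0 < κ := lt_of_lt_of_le (by positivity) hκ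
        have h4 := HTo L σ K Es E0 (fun y => -ξ y) ψ hK.le h1
          (fun x => ⟨(h2 x).1, by linarith [(h2 x).2]⟩) h3 κ (2 * d - E) hκ (by linarith) u
          (fun y => by
            have := hu y
            rw [HT_eq] at this
            linarith) x
        refine h4.trans ?_
        apply mul_le_mul_of_nonneg_right _ (Finset.sum_nonneg fun y _ => sq_nonneg _)
        apply mul_le_mul_of_nonneg_right _ (Real.rpow_nonneg hκ0.le _)
        linarith
  · intro κ hκ hκ1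
    have hκ' : Real.exp (-k0 / s) ≤ κ := by
      refine le_trans (Real.exp_le_exp.2 ?_) hκ
      rw [neg_div]
      linarith
    have hκ0 : 0 < κ := lt_of_lt_of_le (Real.exp_pos _) hκ
    have h1 := H2 κ hκ' hκ1
    set m : ℝ := k' * Real.sqrt κ / Real.log (2 / (κ * σ)) with hm
    have hbase : 2 ≤ 2 / (κ * σ) := by
      rw [le_div_iff₀ (by positivity)]
      have : κ * σ ≤ 1 := by nlinarith
      linarith
    have hX : 0 < Real.log (2 / (κ * σ)) := Real.log_pos (by linarith)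
    have hmpos : 0 < m := by positivity
    have hmm : m ≤ k0 * Real.sqrt κ / Real.log (2 / (κ * σ)) := by
      rw [hm]
      gcongr
    have hA : ∀ᵐ ξ ∂(Measure.infinitePi fun _ : Fin d → ℤ => gaussianReal 0 1),
        Pool.Agent.H4R2.LO.Main.Dec d (-1) (fun x => σ * ξ x) (Set.Iic (Es - 2 * d - κ)) m := by
      filter_upwards [h1] with ω hω
      exact Pool.Agent.H4R2.LO.Main.dec_mono _ _ _ _ _ _ hω le_rfl hmm
    have hB : ∀ᵐ ξ ∂(Measure.infinitePi fun _ : Fin d → ℤ => gaussianReal 0 1),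
        Pool.Agent.H4R2.LO.Main.Dec d (-1) (fun x => σ * -ξ x) (Set.Iic (Es - 2 * d - κ)) m := by
      have h3 := hA
      rw [← law_neg d] at h3
      have hm2 : Measurable (fun (ω : (Fin d → ℤ) → ℝ) x => -ω x) := by fun_prop
      exact ae_of_ae_map hm2.aemeasurable h3
    filter_upwards [hA, hB] with ξ hξ hξ'
    apply localized_of σ ξ _ m hmpos
    -- negative energies
    have e1 := Pool.Agent.H4R2.LO.Main.dec_stag _ _ _ m hξ
    -- positive energies
    have e2 := Pool.Agent.H4R2.LO.Main.dec_neg _ _ _ m hξ'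
    simp only [neg_neg, mul_neg] at e1 e2
    refine Pool.Agent.H4R2.LO.Main.dec_mono _ _ _ _ _ _
      (Pool.Agent.H4R2.LO.Main.dec_union _ _ _ _ m e1 e2) ?_ le_rfl
    intro E hE
    have hE' : 2 * d - Es + κ ≤ |E| := hE
    rcases abs_cases E with ⟨h, _⟩ | ⟨h, _⟩
    · right
      show -E ≤ Es - 2 * d - κ
      linarith
    · left
      show E ≤ Es - 2 * d - κ
      linarith

end Pool.Agent.Results.MP_1906c1_mp.ScaleAtEdge
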